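import Pool.Agent.helper60.XP.SpecD

/-!
# Module DTR of project xp (MP_af9036_an): transport of the scales.
-/

set_option autoImplicit false

open Complex Metric Set Filter Topology MeasureTheory

noncomputable section

namespace XPD

theorem DTR_mvt (G : ℂ → ℂ) (hG : Differentiable ℂ G) (c a : ℂ) (M r : ℝ) (x x₁ : ℂ)
    (hx : ‖x‖ ≤ r) (hx1 : ‖x₁‖ ≤ r) (hd : ∀ u : ℂ, ‖u‖ ≤ r → ‖deriv G (c + u) - a‖ ≤ M) :
    ‖G (c + x₁) - G (c + x) - a * (x₁ - x)‖ ≤ M * ‖x₁ - x‖ := by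
  have hder : ∀ u : ℂ, HasDerivAt (fun u : ℂ => G (c + u) - a * u) (deriv G (c + u) - a) u := by
    intro u
    have h1 : HasDerivAt G (deriv G (c + u)) (c + u) := (hG (c + u)).hasDerivAt
    have h2 : HasDerivAt (fun u : ℂ => c + u) 1 u := by
      simpa using (hasDerivAt_id u).const_add c
    have h3 : HasDerivAt (fun u : ℂ => G (c + u)) (deriv G (c + u) * 1) u :=
      HasDerivAt.comp u h1 h2
    have h4 : HasDerivAt (fun u : ℂ => a * u) (a * 1) u := (hasDerivAt_id u).const_mul a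
    have h5 := h3.sub h4
    rw [mul_one, mul_one] at h5
    exact h5
  have key := Convex.norm_image_sub_le_of_norm_deriv_le (𝕜 := ℂ)
    (f := fun u : ℂ => G (c + u) - a * u) (C := M) (s := closedBall (0 : ℂ) r) (x := x) (y := x₁)
    (fun u _ => (hder u).differentiableAt)
    (fun u hu => by
      rw [(hder u).deriv]
      exact hd u (by simpa using hu))
    (convex_closedBall _ _) (by simpa using hx) (by simpa using hx1)
  have e : G (c + x₁) - G (c + x) - a * (x₁ - x) =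
      (G (c + x₁) - a * x₁) - (G (c + x) - a * x) := by ring
  rw [e]
  exact key

theorem DTR (h1 : DTL_stmt) (h2 : DIT_stmt) (h3 : SWZ_stmt) : DTR_stmt := by
  obtain ⟨K, hK1, hDTL⟩ := h1
  intro L hL
  have hL4 : 0 < L + 4 := by linarith
  have hK0 : 0 < K := by linarith
  set t : ℝ := 1 / (100 * K * (L + 4)) with ht
  have ht0 : 0 < t := by positivity
  have htK : t * K * (L + 4) = 1 / 100 := by
    rw [ht]; field_simp
  have ht1 : t * K ≤ 1 / 500 := by
    have h5 : (5 : ℝ) ≤ L + 4 := by linarith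
    have : t * K * 5 ≤ t * K * (L + 4) := by
      exact mul_le_mul_of_nonneg_left h5 (by positivity)
    linarith
  have ht2 : t ≤ 1 / 500 := by
    have : t * 1 ≤ t * K := mul_le_mul_of_nonneg_left hK1 ht0.le
    linarith
  refine ⟨K / t, ?_, ?_⟩
  · rw [le_div_iff₀ ht0]; linarith
  intro n k _ f b μ e hHD i j R R' hj hR hR'
  obtain ⟨hD1, hD2, hD3, hD4, hD5, hD6, hD7, hD8⟩ := h2 k f b hHD.cyc
  set a : ℂ := deriv (itf f j) (b i) with ha
  have ha0 : 0 < ‖a‖ := norm_pos_iff.mpr (hD7 j i)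
  have hRp := hR.pos
  have hRp' := hR'.pos
  have he0 := hHD.e0
  by_contra hcon
  push Not at hcon
  have hcon' : R' < t * R * ‖a‖ / K := by
    rw [lt_div_iff₀ hK0]
    have : K / t * R' * t < ‖a‖ * R * t := mul_lt_mul_of_pos_right hcon ht0
    have e1 : K / t * R' * t = R' * K := by field_simp
    rw [e1] at this
    linarith
  obtain ⟨hE, hsub⟩ := hDTL n k f b μ e L hHD i R hR j hj
  obtain ⟨y', hy'n, hy'⟩ := hR'.far
  have hmem : b (i + (j : ZMod k)) + y' ∈ ball (b (i + (j : ZMod k))) (t * R * ‖a‖ / K) := by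
    rw [mem_ball, dist_eq_norm]
    have : b (i + (j : ZMod k)) + y' - b (i + (j : ZMod k)) = y' := by ring
    rw [this, hy'n]
    exact hcon'
  obtain ⟨z, hz, hzy⟩ := hsub t ht0 (by linarith) hmem
  obtain ⟨x, rfl⟩ : ∃ x, z = b i + x := ⟨z - b i, by ring⟩
  have hxn : ‖x‖ < t * R := by
    rw [mem_ball, dist_eq_norm] at hz
    have : b i + x - b i = x := by ring
    rwa [this] at hz
  have htR : t * R ≤ 1 / 500 * R := mul_le_mul_of_nonneg_right ht2 hRp.le
  have hxR : ‖x‖ < R := by linarith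
  -- the iterate `f^k` near `b i`
  set ρ : ℂ := PPS.rho f b with hρ
  have hSWZ := h3 (fun u => itf f k (b i + u) - b i - ρ * u) R (2 * e) hRp (by linarith)
    (by
      intro u _
      have : DifferentiableAt ℂ (fun u => itf f k (b i + u) - b i - ρ * u) u := by
        have h5 : DifferentiableAt ℂ (fun u : ℂ => itf f k (b i + u)) u :=
          DifferentiableAt.comp u (hD3 k (b i + u)) (by fun_prop)
        fun_prop
      exact this.differentiableWithinAt)
    (by simp [hD2 i])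
    (by
      have h5 : HasDerivAt (itf f k) (deriv (itf f k) (b i + 0)) (b i + 0) :=
        (hD3 k (b i + 0)).hasDerivAt
      have h6 : HasDerivAt (fun u : ℂ => b i + u) 1 0 := by
        simpa using (hasDerivAt_id (0 : ℂ)).const_add (b i)
      have h7 : HasDerivAt (fun u : ℂ => itf f k (b i + u)) (deriv (itf f k) (b i + 0) * 1) 0 :=
        HasDerivAt.comp 0 h5 h6
      have h8 : HasDerivAt (fun u : ℂ => ρ * u) (ρ * 1) 0 := (hasDerivAt_id (0 : ℂ)).const_mul ρ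
      have h9 := (h7.sub_const (b i)).sub h8
      have h10 := h9.deriv
      have e1 : (fun u : ℂ => itf f k (b i + u) - b i - ρ * u) =
          ((fun u : ℂ => itf f k (b i + u) - b i) - fun u : ℂ => ρ * u) := by
        funext u; rfl
      rw [e1, h10, add_zero, hD6 i]
      ring)
    (by
      intro u hu
      have h5 := hR.near u hu
      have h6 := hHD.rm
      have e1 : itf f k (b i + u) - b i - ρ * u =
          (itf f k (b i + u) - b i - μ * u) - (ρ - μ) * u := by ring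
      change ‖itf f k (b i + u) - b i - ρ * u‖ ≤ 2 * e * ‖u‖
      rw [e1]
      have h7 : ‖(ρ - μ) * u‖ ≤ e / 10 * ‖u‖ := by
        rw [norm_mul]
        exact mul_le_mul_of_nonneg_right h6 (norm_nonneg _)
      have h8 := norm_sub_le (itf f k (b i + u) - b i - μ * u) ((ρ - μ) * u)
      have h9 : 0 ≤ e * ‖u‖ := by positivity
      nlinarith)
  have hxball : x ∈ ball (0 : ℂ) R := by simpa using hxR
  set x₁ : ℂ := itf f k (b i + x) - b i with hx₁
  set h : ℂ := x₁ - ρ * x with hh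
  have hhn : ‖h‖ ≤ 2 * e * ‖x‖ ^ 2 / R := hSWZ.1 x hxball
  have hρ1 : ‖ρ - 1‖ ≤ (L + 1) * e := by
    have e1 : ρ - 1 = (ρ - μ) + (μ - 1) := by ring
    rw [e1]
    have := norm_add_le (ρ - μ) (μ - 1)
    have h5 := hHD.rm
    have h6 := hHD.mL
    nlinarith
  have hxx : ‖x‖ ^ 2 / R ≤ t * ‖x‖ := by
    rw [div_le_iff₀ hRp]
    nlinarith [norm_nonneg x]
  have hxx1 : ‖x‖ ^ 2 / R ≤ ‖x‖ := by
    have : t * ‖x‖ ≤ 1 * ‖x‖ := mul_le_mul_of_nonneg_right (by linarith) (norm_nonneg x)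
    linarith
  have hx1x : ‖x₁ - x‖ ≤ (L + 3) * e * ‖x‖ := by
    have e1 : x₁ - x = (ρ - 1) * x + h := by rw [hh]; ring
    rw [e1]
    have h5 := norm_add_le ((ρ - 1) * x) h
    have h6 : ‖(ρ - 1) * x‖ ≤ (L + 1) * e * ‖x‖ := by
      rw [norm_mul]; exact mul_le_mul_of_nonneg_right hρ1 (norm_nonneg _)
    have h7 : 2 * e * ‖x‖ ^ 2 / R ≤ 2 * e * ‖x‖ := by
      have : 2 * e * ‖x‖ ^ 2 / R = 2 * e * (‖x‖ ^ 2 / R) := by ring
      rw [this]
      exact mul_le_mul_of_nonneg_left hxx1 (by linarith)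
    linarith
  have hx1n : ‖x₁‖ ≤ 4 * ‖x‖ := by
    have h5 := hR.near x hxball
    have e1 : x₁ = (itf f k (b i + x) - b i - μ * x) + ((μ - 1) * x + x) := by rw [hx₁]; ring
    rw [e1]
    have h6 := norm_add_le (itf f k (b i + x) - b i - μ * x) ((μ - 1) * x + x)
    have h7 := norm_add_le ((μ - 1) * x) x
    rw [norm_mul] at h7
    have h8 := hHD.m3
    have h9 : (‖μ - 1‖ + e) * ‖x‖ ≤ 3 * ‖x‖ := mul_le_mul_of_nonneg_right h8 (norm_nonneg _)
    linarith
  have h4x : 4 * ‖x‖ < R / 4 := by linarith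
  -- the two expansions
  have herr2 := (hE x (by
    rw [mem_ball_zero_iff]
    have := norm_nonneg x
    linarith)).2
  rw [hzy] at herr2
  set err₂ : ℂ := y' - a * x with herr₂
  have herr2' : ‖err₂‖ ≤ K * ‖x‖ ^ 2 / R * ‖a‖ := by
    have e1 : b (i + (j : ZMod k)) + y' - b (i + (j : ZMod k)) - deriv (itf f j) (b i) * x =
        err₂ := by rw [herr₂, ha]; ring
    rw [e1] at herr2
    exact herr2
  have hcomm : itf f k (b (i + (j : ZMod k)) + y') = itf f j (b i + x₁) := by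
    rw [← hzy, ← hD4 k j, add_comm k j, hD4 j k]
    congr 1
    rw [hx₁]; ring
  have hmvt := DTR_mvt (itf f j) (hD3 j) (b i) a (2 * K * (4 * ‖x‖) / R * ‖a‖) (4 * ‖x‖) x x₁
    (by have := norm_nonneg x; linarith) hx1n (by
      intro u hu
      have h5 := (hE u (by rw [mem_ball_zero_iff]; linarith)).1
      refine h5.trans ?_
      have h6 : 2 * K * ‖u‖ / R ≤ 2 * K * (4 * ‖x‖) / R := by
        gcongr
      exact mul_le_mul_of_nonneg_right h6 (norm_nonneg _))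
  rw [hzy, ← hcomm] at hmvt
  set err₁ : ℂ := itf f k (b (i + (j : ZMod k)) + y') - (b (i + (j : ZMod k)) + y') -
    a * (x₁ - x) with herr₁
  have hfin : itf f k (b (i + (j : ZMod k)) + y') - b (i + (j : ZMod k)) - μ * y' =
      (1 - ρ) * err₂ + a * h + err₁ + (ρ - μ) * y' := by
    rw [herr₁, herr₂, hh]; ring
  have hA : ‖(1 - ρ) * err₂‖ ≤ (L + 1) * e * (K * ‖x‖ ^ 2 / R * ‖a‖) := by
    rw [norm_mul, norm_sub_rev]
    exact mul_le_mul hρ1 herr2' (norm_nonneg _) (by positivity)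
  have hB : ‖a * h‖ ≤ ‖a‖ * (2 * e * ‖x‖ ^ 2 / R) := by
    rw [norm_mul]
    exact mul_le_mul_of_nonneg_left hhn (norm_nonneg _)
  have hC : ‖err₁‖ ≤ 2 * K * (4 * ‖x‖) / R * ‖a‖ * ((L + 3) * e * ‖x‖) :=
    hmvt.trans (mul_le_mul_of_nonneg_left hx1x (by positivity))
  have hDD : ‖(ρ - μ) * y'‖ ≤ e / 10 * R' := by
    rw [norm_mul, hy'n]
    exact mul_le_mul_of_nonneg_right hHD.rm hRp'.le
  -- lower bound of `R'`
  have hlow : ‖a‖ * ‖x‖ ≤ 2 * R' := by
    have e1 : a * x = y' - err₂ := by rw [herr₂]; ring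
    have h5 : ‖a * x‖ ≤ ‖y'‖ + ‖err₂‖ := by rw [e1]; exact norm_sub_le _ _
    rw [norm_mul, hy'n] at h5
    have h6 : K * ‖x‖ ^ 2 / R * ‖a‖ ≤ 1 / 500 * (‖a‖ * ‖x‖) := by
      have e2 : K * ‖x‖ ^ 2 / R * ‖a‖ = K * ‖a‖ * (‖x‖ ^ 2 / R) := by ring
      rw [e2]
      calc K * ‖a‖ * (‖x‖ ^ 2 / R) ≤ K * ‖a‖ * (t * ‖x‖) :=
            mul_le_mul_of_nonneg_left hxx (by positivity)
        _ = (t * K) * (‖a‖ * ‖x‖) := by ring
        _ ≤ 1 / 500 * (‖a‖ * ‖x‖) := mul_le_mul_of_nonneg_right ht1 (by positivity)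
    have h7 : 0 ≤ ‖a‖ * ‖x‖ := by positivity
    linarith
  have htot : (L + 1) * e * (K * ‖x‖ ^ 2 / R * ‖a‖) + ‖a‖ * (2 * e * ‖x‖ ^ 2 / R) +
      2 * K * (4 * ‖x‖) / R * ‖a‖ * ((L + 3) * e * ‖x‖) ≤ 9 / 50 * e * R' := by
    have e1 : (L + 1) * e * (K * ‖x‖ ^ 2 / R * ‖a‖) + ‖a‖ * (2 * e * ‖x‖ ^ 2 / R) +
        2 * K * (4 * ‖x‖) / R * ‖a‖ * ((L + 3) * e * ‖x‖) =
        (K * (L + 1) + 2 + 8 * K * (L + 3)) * e * ‖a‖ * (‖x‖ ^ 2 / R) := by ring
    rw [e1]
    have h5 : K * (L + 1) + 2 + 8 * K * (L + 3) ≤ 9 * (K * (L + 4)) := by nlinarith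
    calc (K * (L + 1) + 2 + 8 * K * (L + 3)) * e * ‖a‖ * (‖x‖ ^ 2 / R)
        ≤ 9 * (K * (L + 4)) * e * ‖a‖ * (t * ‖x‖) := by
          gcongr
      _ = 9 * (t * K * (L + 4)) * e * (‖a‖ * ‖x‖) := by ring
      _ = 9 / 100 * e * (‖a‖ * ‖x‖) := by rw [htK]; ring
      _ ≤ 9 / 100 * e * (2 * R') := mul_le_mul_of_nonneg_left hlow (by positivity)
      _ = 9 / 50 * e * R' := by ring
  have hle : ‖itf f k (b (i + (j : ZMod k)) + y') - b (i + (j : ZMod k)) - μ * y'‖ ≤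
      9 / 50 * e * R' + e / 10 * R' := by
    rw [hfin]
    have h5 := norm_add_le ((1 - ρ) * err₂ + a * h + err₁) ((ρ - μ) * y')
    have h6 := norm_add_le ((1 - ρ) * err₂ + a * h) err₁
    have h7 := norm_add_le ((1 - ρ) * err₂) (a * h)
    linarith
  rw [hy'] at hle
  have : 0 < e * R' := by positivity
  nlinarith

end XPD
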