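import Pool.Agent.helper54.XP.SpecG
import Pool.Agent.helper74.MP.MA

/-!
# Module GEI of project xp (MP_af9036_an): the energy of one datum on compact subsets of `Reg D`
-/

set_option autoImplicit false

open Complex Metric Set Filter Topology MeasureTheory XP
open V3S (UF)

noncomputable section

namespace XPG

theorem GEI_int (μ : Measure ℂ) (f : ℂ → ℝ) (A : ℝ) (hA : 0 ≤ A)
    (h : ∫⁻ x, ENNReal.ofReal (f x) ∂μ ≤ ENNReal.ofReal A) : ∫ x, f x ∂μ ≤ A := by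
  by_cases hf : Integrable f μ
  · rw [integral_eq_lintegral_pos_part_sub_lintegral_neg_part hf]
    have h1 : (∫⁻ x, ENNReal.ofReal (f x) ∂μ).toReal ≤ A := ENNReal.toReal_le_of_le_ofReal hA h
    have h2 : 0 ≤ (∫⁻ x, ENNReal.ofReal (-f x) ∂μ).toReal := ENNReal.toReal_nonneg
    linarith
  · rw [integral_undef hf]
    exact hA

/-- the pointwise inequality in the `x`-plane. -/
theorem GEI_point (hGEP : GEP_stmt) (hBA1 : XPL.BA1_stmt) (hADH : XPL.ADH_stmt) (n : ℕ) (C A : ℝ)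
    (D : Dat) (hG : D.Good n C A) (hlam : D.lam ≠ 0) (x : ℂ) (c1 : deriv (D.F D.k) x ≠ 0)
    (c2 : D.zz (D.F D.k x) ∉ D.PP) (c3 : D.T D.k x ≠ 0) :
    ‖D.lam‖ * en D x ≤ (∑ q ∈ Finset.range D.k,
      XPS.dens D.f D.H ((fun y => D.f.eval y)^[D.k - q]) (D.zz x)) * ‖D.sg‖ ^ 2 := by
  obtain ⟨hsg, -, -, -, -, -, -, -, hder, hzF, -⟩ := hBA1 n C A D hG
  obtain ⟨hAD, -, -, hBz, -, -⟩ := hADH n C A D hG
  set τ : ℂ := deriv ((fun y => D.f.eval y)^[D.k]) (D.zz x) ^ 2 *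
    D.H ((fun y => D.f.eval y)^[D.k] (D.zz x)) with hτ
  have hT : D.T D.k x = D.sg ^ 2 * τ := by
    unfold Dat.T
    rw [hBz, hzF, hder, hτ]
    ring
  have hτ0 : τ ≠ 0 := by
    intro h
    rw [h, mul_zero] at hT
    exact c3 hT
  have hBB : D.H ((fun y => D.f.eval y)^[D.k] (D.zz x)) ≠ 0 := by
    intro h
    apply hτ0
    rw [hτ, h, mul_zero]
  have h := hGEP D.k D.f D.PP D.H hAD (D.zz x) (by rw [← hder]; exact c1)
    (by rw [← hzF]; exact c2) hBB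
  rw [← hτ] at h
  set w : ℂ := τ - D.H (D.zz x) with hw
  have hq : D.lam * qq D x = D.sg ^ 2 * w := by
    unfold qq
    rw [hT, mul_div_cancel₀ _ hlam, hw, hBz]
    ring
  have hn0 : ((‖D.lam‖ : ℝ) : ℂ) ≠ 0 := by
    exact_mod_cast (norm_pos_iff.2 hlam).ne'
  have hen : ‖D.lam‖ * en D x = ‖D.sg‖ ^ 2 * (‖w‖ - (w * (((‖τ‖ : ℝ) : ℂ) / τ)).re) := by
    unfold en
    rw [mul_sub, ← norm_mul, hq, norm_mul, norm_pow, mul_sub]
    congr 1
    rw [← Complex.re_ofReal_mul, ← Complex.re_ofReal_mul]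
    congr 1
    have h1 : ((‖D.lam‖ : ℝ) : ℂ) * (D.lam / ((‖D.lam‖ : ℝ) : ℂ) * qq D x *
        (((‖D.T D.k x‖ : ℝ) : ℂ) / D.T D.k x)) =
        (D.lam * qq D x) * (((‖D.T D.k x‖ : ℝ) : ℂ) / D.T D.k x) := by
      field_simp
    rw [h1, hq, hT, norm_mul, norm_pow]
    push_cast
    field_simp
  rw [hen, mul_comm]
  exact mul_le_mul_of_nonneg_right h (by positivity)

theorem GEI_dens (hMIX : XPS.MIX_stmt) (f : Polynomial ℂ) (P : Set ℂ) (B : ℂ → ℂ)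
    (hAD : XPS.AD f P B) (j : ℕ) :
    (∀ z, 0 ≤ XPS.dens f B ((fun y => f.eval y)^[j]) z) ∧
    Measurable (XPS.dens f B ((fun y => f.eval y)^[j])) := by
  obtain ⟨-, -, m3, m4, m5⟩ := hMIX f P B hAD
  have hd : Differentiable ℂ ((fun y => f.eval y)^[j]) := f.differentiable.iterate j
  refine ⟨fun z => ?_, ?_⟩
  · unfold XPS.dens
    have := m5 (((fun y => f.eval y)^[j]) z)
    positivity
  · have h1 : Measurable ((fun y => f.eval y)^[j]) := hd.continuous.measurable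
    have h2 : Measurable (fun w => XPS.Df f B (((fun y => f.eval y)^[j]) w)) := m4.comp h1
    have h3 : Measurable (fun w => ‖XPS.er f B (((fun y => f.eval y)^[j]) w)‖) := (m3.comp h1).norm
    have h4 : Measurable (fun w => ‖deriv ((fun y => f.eval y)^[j]) w‖ ^ 2) :=
      (measurable_deriv _).norm.pow_const 2
    exact (h2.add (h3.const_mul 2)).mul h4

theorem GEI_one (hGEP : GEP_stmt) (hMAX : XPS.MAX_stmt) (hMIX : XPS.MIX_stmt)
    (hBA1 : XPL.BA1_stmt) (hADH : XPL.ADH_stmt) (n : ℕ) (C A : ℝ)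
    (D : Dat) (hG : D.Good n C A) (hlam : D.lam ≠ 0) (e : ℝ) (he : 0 ≤ e) (hs : 0 ≤ D.s)
    (hsE : D.s * D.E ≤ e * ‖D.lam‖) (ρ : ℝ) (Ω : Set ℂ) (M : ℕ) (hΩ : IsOpen Ω)
    (hΩρ : Ω ⊆ ball 0 ρ) (K : Set ℂ) (hK : IsCompact K) (hKΩ : K ⊆ Ω)
    (c1 : ∀ x ∈ K, deriv (D.F D.k) x ≠ 0) (c2 : ∀ x ∈ K, D.zz (D.F D.k x) ∉ D.PP)
    (c3 : ∀ x ∈ K, D.T D.k x ≠ 0) (c4 : ∀ j ≤ D.k, InjOn (D.F j) (ball 0 ρ))
    (c5 : ∀ j ≤ D.k, ∀ x ∈ ball (0 : ℂ) ρ, ‖D.zz (D.F j x)‖ < D.rad)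
    (c7 : ∀ (z : ℂ) (J : Finset ℕ), (∀ j ∈ J, 1 ≤ j ∧ j ≤ D.k) →
      (∀ j ∈ J, ∃ x ∈ Ω, D.F j x = z) → J.card ≤ M) :
    ∫ x in K, en D x ≤ M * e := by
  obtain ⟨hsg, -, hxx, hzx, -, -, -, -, hder, hzF, -⟩ := hBA1 n C A D hG
  obtain ⟨hAD, -, -, hBz, -, hen⟩ := hADH n C A D hG
  have hlam0 : 0 < ‖D.lam‖ := norm_pos_iff.2 hlam
  have hsg0 : 0 < ‖D.sg‖ := norm_pos_iff.2 hsg
  -- zz
  have hzzd : ∀ x, HasDerivAt D.zz D.sg x := by
    intro x
    have h := ((hasDerivAt_id x).const_mul D.sg).const_add (D.b 0)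
    rw [mul_one] at h
    exact h
  have hzzdiff : Differentiable ℂ D.zz := fun x => (hzzd x).differentiableAt
  have hzzinj : Function.Injective D.zz := by
    intro x y h
    rw [← hxx x, ← hxx y, h]
  have hzzopen : IsOpen (D.zz '' Ω) := by
    have h1 : D.zz '' Ω = D.xx ⁻¹' Ω := by
      ext z
      constructor
      · rintro ⟨x, hx, rfl⟩
        rw [mem_preimage, hxx]
        exact hx
      · intro hz
        exact ⟨D.xx z, hz, hzx z⟩
    rw [h1]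
    refine hΩ.preimage ?_
    unfold Dat.xx
    fun_prop
  -- the measure estimate
  have hMA1 := (hMAX D.f D.PP D.H D.rad (D.s * D.E) hAD (hen hs) D.k M (fun _ => D.zz '' Ω)
    (fun q => (fun y => D.f.eval y)^[D.k - q]) ?_ ?_).1
  rotate_left
  · intro q hq
    refine ⟨hzzopen, (D.f.differentiable.iterate _).differentiableOn, ?_, ?_⟩
    · rintro z ⟨x, hx, rfl⟩ z' ⟨x', hx', rfl⟩ h
      have h1 : D.F (D.k - q) x = D.F (D.k - q) x' := by
        unfold Dat.F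
        exact congrArg _ h
      rw [c4 (D.k - q) (Nat.sub_le _ _) (hΩρ hx) (hΩρ hx') h1]
    · rintro z ⟨x, hx, rfl⟩
      rw [mem_ball, dist_zero_right]
      have h1 := c5 (D.k - q) (Nat.sub_le _ _) x (hΩρ hx)
      rw [hzF] at h1
      exact h1
  · intro z F hF
    have hinj : Set.InjOn (fun q => D.k - q) (F : Set ℕ) := by
      intro a ha a' ha' h
      have h1 := (hF a ha).1
      have h2 := (hF a' ha').1
      simp only at h
      omega
    rw [← Finset.card_image_of_injOn hinj]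
    refine c7 (D.xx z) _ ?_ ?_
    · intro j hj
      obtain ⟨q, hq, rfl⟩ := Finset.mem_image.1 hj
      have h1 := (hF q hq).1
      omega
    · intro j hj
      obtain ⟨q, hq, rfl⟩ := Finset.mem_image.1 hj
      obtain ⟨z', ⟨x, hx, rfl⟩, hz'⟩ := (hF q hq).2
      refine ⟨x, hx, ?_⟩
      unfold Dat.F
      rw [hz']
  -- change of variables
  set u : ℂ → ℝ := fun z => ∑ q ∈ Finset.range D.k,
    XPS.dens D.f D.H ((fun y => D.f.eval y)^[D.k - q]) z with hu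
  have hu1 : ∫⁻ w in Ω, ENNReal.ofReal (u (D.zz w) * ‖deriv D.zz w‖ ^ 2) ≤
      M * ENNReal.ofReal (e * ‖D.lam‖) := by
    rw [MPS.MA_cov hΩ hzzdiff.differentiableOn hzzinj.injOn u]
    have h1 : ∫⁻ z in D.zz '' Ω, ENNReal.ofReal (u z) = ∑ q ∈ Finset.range D.k,
        ∫⁻ z in D.zz '' Ω, ENNReal.ofReal (XPS.dens D.f D.H ((fun y => D.f.eval y)^[D.k - q]) z) := by
      rw [← lintegral_finsetSum']
      · refine lintegral_congr fun z => ?_
        rw [hu]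
        exact ENNReal.ofReal_sum_of_nonneg fun q _ =>
          (GEI_dens hMIX D.f D.PP D.H hAD (D.k - q)).1 z
      · intro q _
        exact (GEI_dens hMIX D.f D.PP D.H hAD (D.k - q)).2.ennreal_ofReal.aemeasurable
    rw [h1]
    refine le_trans hMA1 ?_
    gcongr
  have hfin : ∫⁻ x in K, ENNReal.ofReal (‖D.lam‖ * en D x) ≤ ENNReal.ofReal (e * ‖D.lam‖ * M) := by
    calc ∫⁻ x in K, ENNReal.ofReal (‖D.lam‖ * en D x)
        ≤ ∫⁻ x in K, ENNReal.ofReal (u (D.zz x) * ‖deriv D.zz x‖ ^ 2) := by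
          refine setLIntegral_mono' hK.measurableSet fun x hx => ENNReal.ofReal_le_ofReal ?_
          rw [(hzzd x).deriv]
          exact GEI_point hGEP hBA1 hADH n C A D hG hlam x (c1 x hx) (c2 x hx) (c3 x hx)
      _ ≤ ∫⁻ x in Ω, ENNReal.ofReal (u (D.zz x) * ‖deriv D.zz x‖ ^ 2) := lintegral_mono_set hKΩ
      _ ≤ M * ENNReal.ofReal (e * ‖D.lam‖) := hu1
      _ = ENNReal.ofReal (e * ‖D.lam‖ * M) := by
          rw [mul_comm (e * ‖D.lam‖) (M : ℝ), ENNReal.ofReal_mul (Nat.cast_nonneg M),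
            ENNReal.ofReal_natCast]
  have hint := GEI_int (volume.restrict K) (fun x => ‖D.lam‖ * en D x) (e * ‖D.lam‖ * M)
    (by positivity) hfin
  rw [integral_const_mul] at hint
  have h1 : ‖D.lam‖ * ∫ x in K, en D x ≤ ‖D.lam‖ * (M * e) := by
    refine le_trans hint (le_of_eq ?_)
    ring
  exact le_of_mul_le_mul_left h1 hlam0

theorem GEI (hGEP : GEP_stmt) (hGFK : GFK_stmt) (hGHP : GHP_stmt) (hGTC : GTC_stmt)
    (hMAX : XPS.MAX_stmt) (hMIX : XPS.MIX_stmt) (hBA1 : XPL.BA1_stmt) (hADH : XPL.ADH_stmt) :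
    GEI_stmt := by
  intro n C C' C'' D hS hL e he hsE ρ₀ Ω M hΩ hΩρ₀ hmult K hK hKΩ hKR
  set ρ : ℝ := max ρ₀ 1 with hρ
  have hρ0 : 0 < ρ := lt_of_lt_of_le one_pos (le_max_right _ _)
  have hΩρ : Ω ⊆ ball 0 ρ := hΩρ₀.trans (ball_subset_ball (le_max_left _ _))
  have hKP : K ⊆ (Pin D)ᶜ := fun x hx => (hKR hx).1
  -- lower bound of `Bin` on `K`
  obtain ⟨c, hc, hcK⟩ : ∃ c > (0 : ℝ), ∀ x ∈ K, c ≤ ‖Bin D x‖ := by
    rcases K.eq_empty_or_nonempty with hKe | hKn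
    · exact ⟨1, one_pos, fun x hx => by rw [hKe] at hx; exact absurd hx (notMem_empty _)⟩
    · have hcont : ContinuousOn (fun x => ‖Bin D x‖) K := (hL.Bdiff.continuousOn.mono hKP).norm
      obtain ⟨x₀, hx₀, hmin⟩ := hK.exists_isMinOn hKn hcont
      exact ⟨‖Bin D x₀‖, norm_pos_iff.2 (hKR hx₀).2, fun x hx => hmin hx⟩
  have e1 := (hGFK n C C' C'' D hS hL ρ hρ0).2 (1 / 2) (by norm_num)
  have e2 := hGHP n C C' C'' D hS hL K hK hKP
  have e3 := hGTC n C C' C'' D hS hL K hK hKP (c / 2) (by positivity)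
  have e4 := hL.inj ρ hρ0
  have e5 := hL.img ρ hρ0 1 one_pos
  obtain ⟨A, -, hA⟩ := hS.good
  filter_upwards [e1, e2, e3, e4, e5, hmult, hsE] with m h1 h2 h3 h4 h5 h6 h7
  have hlam : (D m).lam ≠ 0 := by
    intro h
    have := (hL.ga m).lam0
    rw [h, Complex.zero_re] at this
    exact lt_irrefl _ this
  refine GEI_one hGEP hMAX hMIX hBA1 hADH n C (A m) (D m) (hA m) hlam e he
    (hS.hl.par.s0 m).le h7 ρ Ω M hΩ hΩρ K hK hKΩ ?_ ?_ ?_ h4 ?_ h6
  · intro x hx h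
    have h7 := (h1 x (hΩρ (hKΩ hx))).2
    rw [h, zero_sub, norm_neg, norm_one] at h7
    norm_num at h7
  · intro x hx
    exact (h2 (D m).k le_rfl x hx).1
  · intro x hx h
    have h7 := h3 (D m).k le_rfl x hx
    rw [h, zero_sub, norm_neg] at h7
    linarith [hcK x hx]
  · intro j hj x hx
    exact (h5 j hj x hx).1

end XPG
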