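import Pool.Agent.helper60.XP.SpecT

/-!
# Module ROT of project xp (MP_af9036_an): `ψ` is a rotation in the coordinate `u`.
-/

set_option autoImplicit false

open Complex Metric Set Filter Topology MeasureTheory
open V3S (UF)
open XP

noncomputable section

namespace XPT

/-- the local inverse of a holomorphic function with derivative `1` at `0`. -/
theorem ROT_inverse (u : ℂ → ℂ) (hu : AnalyticAt ℂ u 0) (hu0 : u 0 = 0) (hu1 : deriv u 0 = 1) :
    ∃ w : ℂ → ℂ, w 0 = 0 ∧ deriv w 0 = 1 ∧ (∀ᶠ s in 𝓝 (0 : ℂ), u (w s) = s) ∧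
      (∀ᶠ x in 𝓝 (0 : ℂ), w (u x) = x) ∧ (∀ᶠ s in 𝓝 (0 : ℂ), deriv u (w s) ≠ 0 ∧
        HasDerivAt w (deriv u (w s))⁻¹ s) ∧ Tendsto w (𝓝 0) (𝓝 0) := by
  have hus : HasStrictDerivAt u 1 0 := by
    have := hu.hasStrictDerivAt
    rwa [hu1] at this
  have hF := hus.hasStrictFDerivAt_equiv one_ne_zero
  set e := HasStrictFDerivAt.toOpenPartialHomeomorph u hF with he
  have hcoe : (e : ℂ → ℂ) = u := HasStrictFDerivAt.toOpenPartialHomeomorph_coe hF
  have hsrc : (0 : ℂ) ∈ e.source := HasStrictFDerivAt.mem_toOpenPartialHomeomorph_source hF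
  have htgt : (0 : ℂ) ∈ e.target := by
    have := HasStrictFDerivAt.image_mem_toOpenPartialHomeomorph_target hF
    rwa [hu0] at this
  have hw0 : e.symm 0 = 0 := by
    have := e.left_inv hsrc
    rw [hcoe, hu0] at this
    exact this
  have hT : Tendsto e.symm (𝓝 0) (𝓝 0) := by
    have := e.continuousAt_symm htgt
    unfold ContinuousAt at this
    rwa [hw0] at this
  have hright : ∀ᶠ s in 𝓝 (0 : ℂ), u (e.symm s) = s := by
    filter_upwards [e.open_target.mem_nhds htgt] with s hs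
    have := e.right_inv hs
    rwa [hcoe] at this
  have hleft : ∀ᶠ x in 𝓝 (0 : ℂ), e.symm (u x) = x := by
    filter_upwards [e.open_source.mem_nhds hsrc] with x hx
    have := e.left_inv hx
    rwa [hcoe] at this
  have hder : ∀ᶠ x in 𝓝 (0 : ℂ), AnalyticAt ℂ u x ∧ deriv u x ≠ 0 := by
    refine hu.eventually_analyticAt.and ?_
    have hc : ContinuousAt (deriv u) 0 := hu.deriv.continuousAt
    have h1 : deriv u 0 ≠ 0 := by rw [hu1]; exact one_ne_zero
    exact hc.eventually_ne h1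
  have hd : ∀ᶠ s in 𝓝 (0 : ℂ), deriv u (e.symm s) ≠ 0 ∧
      HasDerivAt e.symm (deriv u (e.symm s))⁻¹ s := by
    filter_upwards [hT.eventually hder, e.open_target.mem_nhds htgt,
      hright.eventually_nhds] with s h1 h2 h3
    exact ⟨h1.2, HasDerivAt.of_local_left_inverse (e.continuousAt_symm h2)
      h1.1.differentiableAt.hasDerivAt h1.2 h3⟩
  refine ⟨e.symm, hw0, ?_, hright, hleft, hd, hT⟩
  have h1 := hd.self_of_nhds
  rw [h1.2.deriv, hw0, hu1, inv_one]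

theorem ROT_punct (w : ℂ → ℂ) (hT : Tendsto w (𝓝 0) (𝓝 0)) (hne : ∀ᶠ s in 𝓝[≠] (0 : ℂ), w s ≠ 0) :
    Tendsto w (𝓝[≠] 0) (𝓝[≠] 0) := by
  rw [tendsto_nhdsWithin_iff]
  exact ⟨hT.mono_left nhdsWithin_le_nhds, hne⟩

theorem ROT (h1 : RTU_stmt) (h2 : RTX_stmt) : ROT_stmt := by
  intro B E ψ d ζ hd hE hE0 hB hψ hψ0 hψ1 hζ hinv
  have hζ0 : ζ ≠ 0 := by
    intro h
    rw [h, norm_zero] at hζ
    exact zero_ne_one hζ
  obtain ⟨u, hu, hu0, hu1, huB⟩ := h1 B E d hd hE hE0 hB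
  obtain ⟨w, hw0, hw1, hright, hleft, hwd, hwT⟩ := ROT_inverse u hu hu0 hu1
  have hψT : Tendsto ψ (𝓝 0) (𝓝 0) := by
    have := hψ.continuousAt
    unfold ContinuousAt at this
    rwa [hψ0] at this
  have hwne : ∀ᶠ s in 𝓝[≠] (0 : ℂ), w s ≠ 0 := by
    have h3 : ∀ᶠ s in 𝓝[≠] (0 : ℂ), s ≠ 0 := eventually_mem_nhdsWithin
    filter_upwards [hright.filter_mono nhdsWithin_le_nhds, h3] with s h4 h5 h6
    rw [h6, hu0] at h4
    exact h5 h4.symm
  have hψne : ∀ᶠ s in 𝓝[≠] (0 : ℂ), ψ s ≠ 0 := by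
    have h3 : HasDerivAt ψ ζ 0 := by
      have := hψ.differentiableAt.hasDerivAt
      rwa [hψ1] at this
    exact h3.eventually_ne hζ0
  have hwP := ROT_punct w hwT hwne
  have hψP := ROT_punct ψ hψT hψne
  have hwA : AnalyticAt ℂ w 0 := by
    rw [Complex.analyticAt_iff_eventually_differentiableAt]
    filter_upwards [hwd] with s hs
    exact hs.2.differentiableAt
  have hψA' : AnalyticAt ℂ ψ (w 0) := by rw [hw0]; exact hψ
  have huA' : AnalyticAt ℂ u (ψ (w 0)) := by rw [hw0, hψ0]; exact hu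
  have hyA : AnalyticAt ℂ (fun s => u (ψ (w s))) 0 := by
    have h3 : AnalyticAt ℂ (fun s => ψ (w s)) 0 := hψA'.comp hwA
    exact AnalyticAt.comp' (f := fun s => ψ (w s)) huA' h3
  -- derivative of `y`
  have hyd : ∀ᶠ s in 𝓝 (0 : ℂ), HasDerivAt (fun s => u (ψ (w s)))
      (deriv u (ψ (w s)) * (deriv ψ (w s) * (deriv u (w s))⁻¹)) s := by
    have h3 : ∀ᶠ s in 𝓝 (0 : ℂ), AnalyticAt ℂ ψ (w s) := hwT.eventually hψ.eventually_analyticAt
    have h4 : ∀ᶠ s in 𝓝 (0 : ℂ), AnalyticAt ℂ u (ψ (w s)) :=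
      (hψT.comp hwT).eventually hu.eventually_analyticAt
    filter_upwards [h3, h4, hwd] with s h5 h6 h7
    have h8 : HasDerivAt (fun s => ψ (w s)) (deriv ψ (w s) * (deriv u (w s))⁻¹) s :=
      HasDerivAt.comp s h5.differentiableAt.hasDerivAt h7.2
    exact HasDerivAt.comp s h6.differentiableAt.hasDerivAt h8
  have hy0 : (fun s => u (ψ (w s))) 0 = 0 := by
    simp only [hw0, hψ0, hu0]
  have hy1 : deriv (fun s => u (ψ (w s))) 0 = ζ := by
    rw [hyd.self_of_nhds.deriv, hw0, hψ0, hu1, hψ1]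
    simp
  have hkey : ∀ᶠ s in 𝓝[≠] (0 : ℂ), deriv (fun s => u (ψ (w s))) s ^ 2 *
      (fun s => u (ψ (w s))) s ^ d = 1 * s ^ d := by
    filter_upwards [hyd.filter_mono nhdsWithin_le_nhds, hwP.eventually huB, hwP.eventually hinv,
      (hψP.comp hwP).eventually huB, hright.filter_mono nhdsWithin_le_nhds,
      hwd.filter_mono nhdsWithin_le_nhds] with s k1 k2 k3 k4 k5 k6
    simp only [Function.comp_apply] at k4
    rw [k1.deriv]
    change (deriv u (ψ (w s)) * (deriv ψ (w s) * (deriv u (w s))⁻¹)) ^ 2 *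
      u (ψ (w s)) ^ d = 1 * s ^ d
    rw [← k4, ← k2, k5] at k3
    have hne := k6.1
    have e1 : deriv ψ (w s) ^ 2 * (deriv u (ψ (w s)) ^ 2 * u (ψ (w s)) ^ d) =
        deriv u (w s) ^ 2 * s ^ d := by
      apply mul_right_cancel₀ hE0
      calc deriv ψ (w s) ^ 2 * (deriv u (ψ (w s)) ^ 2 * u (ψ (w s)) ^ d) * E 0 =
          deriv ψ (w s) ^ 2 * (deriv u (ψ (w s)) ^ 2 * u (ψ (w s)) ^ d * E 0) := by ring
        _ = deriv u (w s) ^ 2 * s ^ d * E 0 := k3
    calc (deriv u (ψ (w s)) * (deriv ψ (w s) * (deriv u (w s))⁻¹)) ^ 2 * u (ψ (w s)) ^ d =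
        (deriv ψ (w s) ^ 2 * (deriv u (ψ (w s)) ^ 2 * u (ψ (w s)) ^ d)) *
          ((deriv u (w s))⁻¹) ^ 2 := by ring
      _ = deriv u (w s) ^ 2 * s ^ d * ((deriv u (w s))⁻¹) ^ 2 := by rw [e1]
      _ = 1 * s ^ d := by
        field_simp
  have hfin := h2 (fun s => u (ψ (w s))) d ζ 1 hd hζ0 hyA hy0 hy1 hkey
  have hψw : ∀ᶠ s in 𝓝 (0 : ℂ), ψ (w s) = w (ζ * s) := by
    have h3 : ∀ᶠ s in 𝓝 (0 : ℂ), w (u (ψ (w s))) = ψ (w s) := (hψT.comp hwT).eventually hleft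
    filter_upwards [h3, hfin] with s h4 h5
    rw [← h4, h5]
  obtain ⟨δ, hδ, hball⟩ := Metric.eventually_nhds_iff_ball.mp ((hright.and hwd).and hψw)
  refine ⟨w, δ, hδ, ?_, hw0, hw1, ?_, ?_⟩
  · intro s hs
    exact ((hball s hs).1.2.2.differentiableAt).differentiableWithinAt
  · intro s hs t ht hst
    rw [← (hball s hs).1.1, hst, (hball t ht).1.1]
  · intro s hs
    exact (hball s hs).2

end XPT
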